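import Pool.Agent.V5helper54.CB.Main

/-! # Chains `p, 2 p + h_0, 2 (2 p + h_0) + h_1, ...`: the first moment over a box of windows -/

set_option autoImplicit false

namespace Pool.Agent.V5helper54.CW

open Finset Filter
open Pool.Agent.V5helper50.PW (SS bad BL blocks blocks_le mem_SS mem_bad PI_zero log_le_rpow)
open Pool.Agent.V5helper54.CB (Pr Pr_eq)

/-- most intervals of length `H` contain many primes -/
theorem few_m (δ : ℝ) (hδ : 0 < δ) (B U : ℕ) : ∃ c : ℝ, 0 < c ∧ c ≤ 1 ∧ ∃ x₀ : ℕ, ∀ x : ℕ, x₀ ≤ x → ∀ H : ℕ,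
    (x : ℝ) ^ (1 / 6 + δ) ≤ H → H ≤ x →
    (((Icc x (B * x)).filter (fun m => ((Pr m (m + H)).card : ℝ) < c * H / Real.log x)).card : ℝ) ≤ x / Real.log x ^ U := by
  classical
  obtain ⟨ε1, hε1d⟩ : ∃ ε1, ε1 = min (δ / 2) (1 / 6) := ⟨_, rfl⟩
  have hε1 : 0 < ε1 := by rw [hε1d]; exact lt_min (by linarith) (by norm_num)
  have hε1a : ε1 ≤ δ / 2 := by rw [hε1d]; exact min_le_left _ _
  have hε1b : ε1 ≤ 1 / 6 := by rw [hε1d]; exact min_le_right _ _
  obtain ⟨c, hc, hc1, hev⟩ := blocks 0 ε1 hε1 hε1b (U + 1)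
  obtain ⟨y0, hy0⟩ := eventually_atTop.1 hev
  have hlogt : Tendsto (fun x : ℕ => Real.log (x : ℝ)) atTop atTop :=
    Real.tendsto_log_atTop.comp tendsto_natCast_atTop_atTop
  obtain ⟨n1, hn1⟩ := eventually_atTop.1 (hlogt.eventually_ge_atTop ((2 : ℝ) ^ (B + 2)))
  obtain ⟨n2, hn2⟩ := eventually_atTop.1 (((tendsto_rpow_atTop hε1).comp
    (tendsto_natCast_atTop_atTop (R := ℝ))).eventually_ge_atTop ((4 : ℝ) * 2 ^ (B + 1)))
  refine ⟨c / 8, by positivity, by linarith, max y0 (max n1 (max n2 8)), fun x hx H hH hHx => ?_⟩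
  have b1 : y0 ≤ x := le_trans (le_max_left _ _) hx
  have b2 : n1 ≤ x := le_trans (le_trans (le_max_left _ _) (le_max_right _ _)) hx
  have b3 : n2 ≤ x := le_trans (le_trans (le_trans (le_max_left _ _) (le_max_right _ _)) (le_max_right _ _)) hx
  have b4 : 8 ≤ x := le_trans (le_trans (le_trans (le_max_right _ _) (le_max_right _ _)) (le_max_right _ _)) hx
  have hL := hn1 x b2
  have hx8 := hn2 x b3
  simp only [Function.comp] at hx8
  have hxr : (8 : ℝ) ≤ x := by exact_mod_cast b4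
  have hx0 : (0 : ℝ) < x := by linarith
  obtain ⟨L, hLd⟩ : ∃ L, L = Real.log (x : ℝ) := ⟨_, rfl⟩
  rw [← hLd] at hL ⊢
  have hpow0 : (4 : ℝ) ≤ 2 ^ (B + 2) := by
    calc (4 : ℝ) = 2 ^ 2 := by norm_num
      _ ≤ 2 ^ (B + 2) := pow_le_pow_right₀ (by norm_num) (by omega)
  have hL0 : 0 < L := by linarith
  have hpow1 : (1 : ℝ) ≤ 2 ^ (B + 1) := one_le_pow₀ (by norm_num)
  -- the half window
  obtain ⟨K, hK⟩ : ∃ K, K = H / 2 := ⟨_, rfl⟩
  have hHbig : (4 : ℝ) * 2 ^ (B + 1) * (x : ℝ) ^ (1 / 6 + ε1) ≤ H := by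
    refine le_trans ?_ hH
    calc (4 : ℝ) * 2 ^ (B + 1) * (x : ℝ) ^ (1 / 6 + ε1) ≤ (x : ℝ) ^ ε1 * (x : ℝ) ^ (1 / 6 + ε1) := by gcongr
      _ = (x : ℝ) ^ (1 / 6 + 2 * ε1) := by
          rw [← Real.rpow_add hx0]
          congr 1
          ring
      _ ≤ (x : ℝ) ^ (1 / 6 + δ) := Real.rpow_le_rpow_of_exponent_le (by linarith) (by linarith)
  have hxp1 : (1 : ℝ) ≤ (x : ℝ) ^ (1 / 6 + ε1) := Real.one_le_rpow (by linarith) (by linarith)
  have hH4 : (4 : ℝ) ≤ H := by
    have h1 : (1 : ℝ) ≤ 2 ^ (B + 1) * (x : ℝ) ^ (1 / 6 + ε1) := one_le_mul_of_one_le_of_one_le hpow1 hxp1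
    linarith
  have hH4' : 4 ≤ H := by exact_mod_cast hH4
  have hK1 : (H : ℝ) / 4 ≤ K := by
    have h1 : H ≤ 4 * K := by omega
    have h2 : (H : ℝ) ≤ 4 * K := by exact_mod_cast h1
    linarith
  have hK0 : 0 < K := by omega
  have hKr : (0 : ℝ) < K := by exact_mod_cast hK0
  have hKH : 2 * K ≤ H := by omega
  -- the dyadic intervals
  have hy : ∀ i < B + 1, y0 ≤ 2 ^ i * x ∧ K ≤ 2 ^ i * x ∧ (((2 ^ i * x : ℕ) : ℝ)) ^ (1 / 6 + ε1) ≤ K ∧
      L ≤ Real.log ((2 ^ i * x : ℕ) : ℝ) ∧ Real.log ((2 ^ i * x : ℕ) : ℝ) ≤ 2 * L := by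
    intro i hi
    have h1 : x ≤ 2 ^ i * x := Nat.le_mul_of_pos_left _ (by positivity)
    have h2 : (2 : ℝ) ^ i ≤ 2 ^ (B + 1) := pow_le_pow_right₀ (by norm_num) (by omega)
    have h3 : ((2 ^ i * x : ℕ) : ℝ) ≤ 2 ^ (B + 1) * x := by
      push_cast
      exact mul_le_mul_of_nonneg_right h2 hx0.le
    have h4 : (x : ℝ) ≤ ((2 ^ i * x : ℕ) : ℝ) := by exact_mod_cast h1
    refine ⟨by omega, by omega, ?_, ?_, ?_⟩
    · have e1 : (1 / 6 + ε1 : ℝ) ≤ 1 := by linarith
      calc (((2 ^ i * x : ℕ) : ℝ)) ^ (1 / 6 + ε1) ≤ (2 ^ (B + 1) * x) ^ (1 / 6 + ε1) :=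
            Real.rpow_le_rpow (by positivity) h3 (by linarith)
        _ = ((2 : ℝ) ^ (B + 1)) ^ (1 / 6 + ε1) * (x : ℝ) ^ (1 / 6 + ε1) := Real.mul_rpow (by positivity) (by positivity)
        _ ≤ ((2 : ℝ) ^ (B + 1)) ^ (1 : ℝ) * (x : ℝ) ^ (1 / 6 + ε1) := by
            apply mul_le_mul_of_nonneg_right _ (by positivity)
            exact Real.rpow_le_rpow_of_exponent_le hpow1 e1
        _ = 2 ^ (B + 1) * (x : ℝ) ^ (1 / 6 + ε1) := by rw [Real.rpow_one]
        _ ≤ H / 4 := by linarith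
        _ ≤ K := hK1
    · rw [hLd]
      exact Real.log_le_log hx0 h4
    · have h5 : Real.log ((2 ^ i * x : ℕ) : ℝ) ≤ Real.log (2 ^ (B + 1) * (x : ℝ)) :=
        Real.log_le_log (by positivity) h3
      have h6 : Real.log (2 ^ (B + 1) * (x : ℝ)) = Real.log (2 ^ (B + 1)) + L := by
        rw [Real.log_mul (by positivity) (by positivity), hLd]
      have h7 : Real.log ((2 : ℝ) ^ (B + 1)) ≤ L := by
        have h8 : Real.log ((2 : ℝ) ^ (B + 1)) ≤ (2 : ℝ) ^ (B + 1) := (Real.log_le_sub_one_of_pos (by positivity)).trans (by linarith)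
        have h9 : (2 : ℝ) ^ (B + 1) ≤ 2 ^ (B + 2) := pow_le_pow_right₀ (by norm_num) (by omega)
        linarith
      linarith
  -- the bad integers lie below bad blocks
  obtain ⟨Z, hZ⟩ : ∃ Z, Z = (range (B + 1)).biUnion (fun i => bad 0 (2 ^ i * x) K c) := ⟨_, rfl⟩
  have hZc : (Z.card : ℝ) ≤ 2 ^ (B + 1) * (x / (K * L ^ (U + 1))) := by
    have h1 : (Z.card : ℝ) ≤ ∑ i ∈ range (B + 1), ((bad 0 (2 ^ i * x) K c).card : ℝ) := by
      rw [hZ]
      exact_mod_cast card_biUnion_le
    refine h1.trans ?_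
    have h2 : ∀ i ∈ range (B + 1), ((bad 0 (2 ^ i * x) K c).card : ℝ) ≤ 2 ^ i * (x / (K * L ^ (U + 1))) := by
      intro i hi
      rw [mem_range] at hi
      obtain ⟨a1, a2, a3, a4, a5⟩ := hy i hi
      refine (hy0 _ a1 K a3 a2).trans ?_
      rw [← mul_div_assoc]
      push_cast
      push_cast at a4
      gcongr
    refine (sum_le_sum h2).trans ?_
    rw [← sum_mul]
    apply mul_le_mul_of_nonneg_right _ (by positivity)
    have h3 : ∑ i ∈ range (B + 1), (2 : ℝ) ^ i ≤ 2 ^ (B + 1) := by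
      rw [geom_sum_eq (by norm_num)]
      norm_num
    exact h3
  have hcover : ((Icc x (B * x)).filter (fun m => ((Pr m (m + H)).card : ℝ) < c / 8 * H / L)) ⊆
      Z.biUnion (fun j => Ico (j * K - K) (j * K)) := by
    intro m hm
    rw [mem_filter, mem_Icc] at hm
    obtain ⟨⟨m1, m2⟩, m3⟩ := hm
    obtain ⟨j, hj⟩ : ∃ j, j = m / K + 1 := ⟨_, rfl⟩
    have j1 : m < j * K := by
      rw [hj, mul_comm]
      exact Nat.lt_mul_div_succ m hK0
    have j2 : j * K ≤ m + K := by
      rw [hj, add_mul, one_mul]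
      have := Nat.div_mul_le_self m K
      omega
    rw [mem_biUnion]
    refine ⟨j, ?_, by rw [mem_Ico]; omega⟩
    -- the dyadic interval
    have h4 : ∃ i < B + 1, 2 ^ i * x ≤ j * K ∧ j * K < 2 * (2 ^ i * x) := by
      by_contra hcon
      push Not at hcon
      have h5 : ∀ i, i ≤ B + 1 → 2 ^ i * x ≤ j * K := by
        intro i
        induction i with
        | zero => intro _; omega
        | succ i ih =>
          intro hi
          have := hcon i (by omega) (ih (by omega))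
          calc 2 ^ (i + 1) * x = 2 * (2 ^ i * x) := by ring
            _ ≤ _ := this
      have h6 := h5 (B + 1) le_rfl
      have h7 : B + 2 ≤ 2 ^ (B + 1) := Nat.succ_le_of_lt (Nat.lt_two_pow_self)
      have h8 : (B + 2) * x ≤ 2 ^ (B + 1) * x := Nat.mul_le_mul_right x h7
      have h9 : (B + 2) * x = B * x + 2 * x := by ring
      omega
    obtain ⟨i, hi, h5, h6⟩ := h4
    obtain ⟨a1, a2, a3, a4, a5⟩ := hy i hi
    rw [hZ, mem_biUnion]
    refine ⟨i, mem_range.2 hi, ?_⟩
    rw [mem_bad hK0]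
    refine ⟨h5, h6, ?_⟩
    rw [zero_add, pow_one]
    have h7 : ((SS 0 (j * K) (j * K + K)).card : ℝ) ≤ ((Pr m (m + H)).card : ℝ) := by
      rw [← Pr_eq]
      have : Pr (j * K) (j * K + K) ⊆ Pr m (m + H) := by
        intro q hq
        rw [Pr, mem_filter, mem_Ioc] at hq ⊢
        exact ⟨⟨by omega, by omega⟩, hq.2⟩
      exact_mod_cast card_le_card this
    refine h7.trans_lt (m3.trans_le ?_)
    rw [div_le_div_iff₀ hL0 (by linarith)]
    calc c / 8 * H * Real.log ((2 ^ i * x : ℕ) : ℝ) ≤ c / 8 * H * (2 * L) := mul_le_mul_of_nonneg_left a5 (by positivity)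
      _ = c * (H / 4) * L := by ring
      _ ≤ c * K * L := by gcongr
  have hcount : (((Icc x (B * x)).filter (fun m => ((Pr m (m + H)).card : ℝ) < c / 8 * H / L)).card : ℝ) ≤ Z.card * K := by
    have h1 := (card_le_card hcover).trans card_biUnion_le
    have h2 : ∑ j ∈ Z, (Ico (j * K - K) (j * K)).card ≤ ∑ _j ∈ Z, K := by
      apply sum_le_sum
      intro j _
      rw [Nat.card_Ico]
      omega
    rw [sum_const, smul_eq_mul] at h2
    exact_mod_cast h1.trans h2
  refine hcount.trans ?_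
  calc (Z.card : ℝ) * K ≤ 2 ^ (B + 1) * (x / (K * L ^ (U + 1))) * K := mul_le_mul_of_nonneg_right hZc hKr.le
    _ = (x / L ^ U) * (2 ^ (B + 1) / L) := by
        rw [pow_succ L U]
        field_simp
    _ ≤ (x / L ^ U) * 1 := by
        apply mul_le_mul_of_nonneg_left _ (by positivity)
        rw [div_le_one hL0]
        refine le_trans ?_ hL
        exact pow_le_pow_right₀ (by norm_num) (by omega)
    _ = _ := mul_one _

/-- all the terms of the chain `2 p + h_0, 2 (2 p + h_0) + h_1, ...` are prime -/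
def AP : (k : ℕ) → (Fin k → ℕ) → ℕ → Prop
  | 0, _, _ => True
  | k + 1, h, p => (2 * p + h 0).Prime ∧ AP k (Fin.tail h) (2 * p + h 0)

lemma sum_cons {k : ℕ} (W : Fin (k + 1) → Finset ℕ) (f : (Fin (k + 1) → ℕ) → ℝ) :
    ∑ h ∈ Fintype.piFinset W, f h =
      ∑ a ∈ W 0, ∑ h ∈ Fintype.piFinset (fun i : Fin k => W i.succ), f (Fin.cons a h) := by
  rw [← sum_product']
  apply sum_nbij' (fun h => (h 0, Fin.tail h)) (fun q => (Fin.cons q.1 q.2 : Fin (k + 1) → ℕ))
  · intro h hh
    rw [Fintype.mem_piFinset] at hh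
    rw [mem_product, Fintype.mem_piFinset]
    exact ⟨hh 0, fun i => hh i.succ⟩
  · intro q hq
    rw [mem_product, Fintype.mem_piFinset] at hq
    rw [Fintype.mem_piFinset]
    intro i
    refine Fin.cases ?_ (fun i => ?_) i
    · exact hq.1
    · exact hq.2 i
  · intro h _
    exact Fin.cons_self_tail h
  · intro q _
    simp
  · intro h _
    simp only
    rw [Fin.cons_self_tail]

open Classical in
/-- **the first moment** -/
theorem first_moment (δ : ℝ) (hδ : 0 < δ) : ∀ k B U : ℕ, ∃ c : ℝ, 0 < c ∧ ∃ x₀ : ℕ, ∀ x : ℕ, x₀ ≤ x →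
    ∀ S : Finset ℕ, S ⊆ Icc x (B * x) → ∀ u H : Fin k → ℕ, (∀ i, u i + H i ≤ x ∧ (x : ℝ) ^ (1 / 6 + δ) ≤ H i) →
    c / Real.log x ^ k * (∏ i, (H i : ℝ)) * (S.card - x / Real.log x ^ U) ≤
      ∑ h ∈ Fintype.piFinset (fun i => Ioc (u i) (u i + H i)), ((S.filter (fun p => AP k h p)).card : ℝ) := by
  intro k
  induction k with
  | zero =>
    intro B U
    refine ⟨1, one_pos, 3, fun x hx S hS u H huH => ?_⟩
    have h1 : (3 : ℝ) ≤ x := by exact_mod_cast hx
    have hL : 0 < Real.log x := Real.log_pos (by linarith)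
    have h2 : (0 : ℝ) ≤ x / Real.log x ^ U := by positivity
    have e1 : ∑ h ∈ Fintype.piFinset (fun i : Fin 0 => Ioc (u i) (u i + H i)), ((S.filter (fun p => AP 0 h p)).card : ℝ) =
        S.card := by
      have e2 : ∀ h : Fin 0 → ℕ, S.filter (fun p => AP 0 h p) = S := fun h => filter_true_of_mem (fun _ _ => trivial)
      simp only [e2]
      rw [sum_const, Fintype.card_piFinset]
      simp
    rw [e1, pow_zero, div_one, Finset.univ_eq_empty, prod_empty, mul_one, one_mul]
    linarith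
  | succ k ih =>
    intro B U
    obtain ⟨c2, hc2, hc21, x2, hx2⟩ := few_m δ hδ (2 * B + 1) (U + 1)
    obtain ⟨c1, hc1, x1, hx1⟩ := ih (2 * B + 1) (U + 2)
    have hlogt : Tendsto (fun x : ℕ => Real.log (x : ℝ)) atTop atTop :=
      Real.tendsto_log_atTop.comp tendsto_natCast_atTop_atTop
    obtain ⟨n1, hn1⟩ := eventually_atTop.1 (hlogt.eventually_ge_atTop (1 + 1 / c2))
    refine ⟨c1 * c2, by positivity, max x1 (max x2 (max n1 1)), fun x hx S hS u H huH => ?_⟩
    have b1 : x1 ≤ x := le_trans (le_max_left _ _) hx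
    have b2 : x2 ≤ x := le_trans (le_trans (le_max_left _ _) (le_max_right _ _)) hx
    have b3 : n1 ≤ x := le_trans (le_trans (le_trans (le_max_left _ _) (le_max_right _ _)) (le_max_right _ _)) hx
    have b4 : 1 ≤ x := le_trans (le_trans (le_trans (le_max_right _ _) (le_max_right _ _)) (le_max_right _ _)) hx
    have hL := hn1 x b3
    have hxr : (1 : ℝ) ≤ x := by exact_mod_cast b4
    have hx0 : (0 : ℝ) < x := by linarith
    have keyW := hx2 x b2 (H 0) (huH 0).2 (by have := (huH 0).1; omega)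
    have keyI := hx1 x b1
    obtain ⟨L, hLd⟩ : ∃ L, L = Real.log (x : ℝ) := ⟨_, rfl⟩
    rw [← hLd] at hL keyW keyI ⊢
    have hc2i : 0 < 1 / c2 := by positivity
    have hL0 : 0 < L := by linarith
    rw [sum_cons]
    obtain ⟨P, hP⟩ : ∃ P : ℝ, P = ∏ i : Fin k, (H i.succ : ℝ) := ⟨_, rfl⟩
    have hP0 : 0 ≤ P := by rw [hP]; exact prod_nonneg fun _ _ => Nat.cast_nonneg _
    have hprod : ∏ i, (H i : ℝ) = H 0 * P := by rw [Fin.prod_univ_succ, hP]
    obtain ⟨T, hT⟩ : ∃ T : ℕ → Finset ℕ, T = fun a => (S.filter (fun p => (2 * p + a).Prime)).image (fun p => 2 * p + a) :=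
      ⟨_, rfl⟩
    have hTc : ∀ a, (T a).card = (S.filter (fun p => (2 * p + a).Prime)).card := by
      intro a
      rw [hT]
      apply card_image_of_injective
      intro p q h
      simp only at h
      omega
    have hstep : ∀ a ∈ Ioc (u 0) (u 0 + H 0), c1 / L ^ k * P * ((T a).card - x / L ^ (U + 2)) ≤
        ∑ h ∈ Fintype.piFinset (fun i : Fin k => Ioc (u i.succ) (u i.succ + H i.succ)),
          ((S.filter (fun p => AP (k + 1) (Fin.cons a h) p)).card : ℝ) := by
      intro a ha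
      rw [mem_Ioc] at ha
      have h1 := keyI (T a) (by
        intro q hq
        rw [hT, mem_image] at hq
        obtain ⟨p, hp, rfl⟩ := hq
        rw [mem_filter] at hp
        have h2 := mem_Icc.1 (hS hp.1)
        have h3 := (huH 0).1
        rw [mem_Icc]
        have h4 : (2 * B + 1) * x = 2 * (B * x) + x := by ring
        rw [h4]
        omega) (fun i => u i.succ) (fun i => H i.succ) (fun i => huH i.succ)
      rw [← hP] at h1
      refine h1.trans (le_of_eq ?_)
      apply sum_congr rfl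
      intro h _
      have h2 : (T a).filter (fun q => AP k h q) =
          (S.filter (fun p => AP (k + 1) (Fin.cons a h) p)).image (fun p => 2 * p + a) := by
        ext q
        rw [hT]
        simp only [mem_filter, mem_image, AP, Fin.cons_zero, Fin.tail_cons]
        constructor
        · rintro ⟨⟨p, ⟨h3, h4⟩, rfl⟩, h5⟩
          exact ⟨p, ⟨h3, h4, h5⟩, rfl⟩
        · rintro ⟨p, ⟨h3, h4, h5⟩, rfl⟩
          exact ⟨⟨p, ⟨h3, h4⟩, rfl⟩, h5⟩
      rw [h2, card_image_of_injective]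
      intro p q h
      simp only at h
      omega
    refine le_trans ?_ (sum_le_sum hstep)
    rw [← mul_sum, sum_sub_distrib, sum_const, nsmul_eq_mul, Nat.card_Ioc, Nat.add_sub_cancel_left]
    -- the sum of the `#T a`
    have hsum : c2 * H 0 / L * (S.card - x / L ^ (U + 1)) ≤ ∑ a ∈ Ioc (u 0) (u 0 + H 0), ((T a).card : ℝ) := by
      have e1 : ∑ a ∈ Ioc (u 0) (u 0 + H 0), ((T a).card : ℝ) = ∑ p ∈ S, ((Pr (2 * p + u 0) (2 * p + u 0 + H 0)).card : ℝ) := by
        have h1 : ∀ a, ((T a).card : ℝ) = ∑ p ∈ S, if (2 * p + a).Prime then (1 : ℝ) else 0 := by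
          intro a
          rw [hTc, card_filter]
          push_cast
          rfl
        simp only [h1]
        rw [sum_comm]
        apply sum_congr rfl
        intro p _
        have h2 : Pr (2 * p + u 0) (2 * p + u 0 + H 0) =
            ((Ioc (u 0) (u 0 + H 0)).filter (fun a => (2 * p + a).Prime)).image (fun a => 2 * p + a) := by
          ext q
          rw [Pr, mem_filter, mem_Ioc, mem_image]
          constructor
          · rintro ⟨⟨h3, h4⟩, h5⟩
            refine ⟨q - 2 * p, ?_, by omega⟩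
            rw [mem_filter, mem_Ioc]
            refine ⟨by omega, ?_⟩
            rwa [show 2 * p + (q - 2 * p) = q by omega]
          · rintro ⟨a, h3, rfl⟩
            rw [mem_filter, mem_Ioc] at h3
            exact ⟨by omega, h3.2⟩
        rw [h2, card_image_of_injective _ (fun x y h => by simpa using h), card_filter]
        push_cast
        rfl
      rw [e1]
      obtain ⟨G, hG⟩ : ∃ G, G = S.filter (fun p => ¬ ((Pr (2 * p + u 0) (2 * p + u 0 + H 0)).card : ℝ) < c2 * H 0 / L) := ⟨_, rfl⟩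
      have hsplit := card_filter_add_card_filter_not (s := S) (fun p => ((Pr (2 * p + u 0) (2 * p + u 0 + H 0)).card : ℝ) < c2 * H 0 / L)
      have hbad : ((S.filter (fun p => ((Pr (2 * p + u 0) (2 * p + u 0 + H 0)).card : ℝ) < c2 * H 0 / L)).card : ℝ) ≤ x / L ^ (U + 1) := by
        refine le_trans ?_ keyW
        have h2 : (S.filter (fun p => ((Pr (2 * p + u 0) (2 * p + u 0 + H 0)).card : ℝ) < c2 * H 0 / L)).card ≤
            ((Icc x ((2 * B + 1) * x)).filter (fun m => ((Pr m (m + H 0)).card : ℝ) < c2 * H 0 / L)).card := by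
          apply card_le_card_of_injOn (fun p => 2 * p + u 0)
          · intro p hp
            rw [mem_coe, mem_filter] at hp
            rw [mem_coe, mem_filter, mem_Icc]
            have h2 := mem_Icc.1 (hS hp.1)
            have h3 := (huH 0).1
            have h4 : (2 * B + 1) * x = 2 * (B * x) + x := by ring
            refine ⟨⟨by dsimp only; omega, by dsimp only; rw [h4]; omega⟩, hp.2⟩
          · intro p _ q _ h
            simp only at h
            omega
        exact_mod_cast h2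
      have hGc : (S.card : ℝ) - x / L ^ (U + 1) ≤ G.card := by
        have h3 : ((S.filter (fun p => ((Pr (2 * p + u 0) (2 * p + u 0 + H 0)).card : ℝ) < c2 * H 0 / L)).card : ℝ) + G.card = S.card := by
          rw [hG]
          exact_mod_cast hsplit
        linarith
      calc c2 * H 0 / L * (S.card - x / L ^ (U + 1)) ≤ c2 * H 0 / L * G.card := mul_le_mul_of_nonneg_left hGc (by positivity)
        _ = ∑ _p ∈ G, c2 * H 0 / L := by rw [sum_const, nsmul_eq_mul, mul_comm]
        _ ≤ ∑ p ∈ G, ((Pr (2 * p + u 0) (2 * p + u 0 + H 0)).card : ℝ) := by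
            apply sum_le_sum
            intro p hp
            rw [hG, mem_filter, not_lt] at hp
            exact hp.2
        _ ≤ _ := by
            apply sum_le_sum_of_subset_of_nonneg
            · rw [hG]; exact filter_subset _ _
            · intro _ _ _
              exact Nat.cast_nonneg _
    rw [hprod]
    have hH0 : (0 : ℝ) ≤ H 0 := Nat.cast_nonneg _
    have h1 : c1 * c2 / L ^ (k + 1) * (H 0 * P) * (S.card - x / L ^ U) ≤
        c1 / L ^ k * P * (c2 * H 0 / L * (S.card - x / L ^ (U + 1)) - H 0 * (x / L ^ (U + 2))) := by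
      have e1 : c1 / L ^ k * P * (c2 * H 0 / L * (S.card - x / L ^ (U + 1)) - H 0 * (x / L ^ (U + 2))) =
          c1 * c2 / L ^ (k + 1) * (H 0 * P) * (S.card - x / L ^ (U + 1) * (1 + 1 / c2)) := by
        rw [pow_succ L k, pow_succ L (U + 1)]
        field_simp
        ring
      rw [e1]
      apply mul_le_mul_of_nonneg_left _ (by positivity)
      have h2 : x / L ^ (U + 1) * (1 + 1 / c2) ≤ x / L ^ (U + 1) * L := mul_le_mul_of_nonneg_left hL (by positivity)
      have h3 : x / L ^ (U + 1) * L = x / L ^ U := by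
        rw [pow_succ]
        field_simp
      linarith
    refine h1.trans ?_
    apply mul_le_mul_of_nonneg_left _ (by positivity)
    linarith

end Pool.Agent.V5helper54.CW
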