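import Pool.Agent.V5helper54.CW.Sieve
import Pool.Agent.V5helper54.CW.First

/-! # Chains `p_0 = p, p_(j+1) = 2 p_j + h_j`: many vectors `h` in every box of windows -/

set_option autoImplicit false

namespace Pool.Agent.V5helper54.CW

open Finset Filter
open Pool.Agent.H646 (rat)
open Pool.Agent.H646.TuplesM (rat_ge_one rat_nonneg)

/-- the chain `p_0 = p, p_(j+1) = 2 p_j + e_j` -/
def ch (e : ℕ → ℕ) (p : ℕ) : ℕ → ℕ
  | 0 => p
  | j + 1 => 2 * ch e p j + e j

/-- a vector as a sequence -/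
def ext {k : ℕ} (h : Fin k → ℕ) (j : ℕ) : ℕ := if hj : j < k then h ⟨j, hj⟩ else 0

lemma ch_affine (e : ℕ → ℕ) (p j : ℕ) : ch e p j = 2 ^ j * p + ch e 0 j := by
  induction j with
  | zero => simp [ch]
  | succ j ih =>
    simp only [ch]
    rw [ih]
    ring

lemma ch_shift (e : ℕ → ℕ) (p i t : ℕ) : ch e p (i + t) = ch (fun l => e (i + l)) (ch e p i) t := by
  induction t with
  | zero => rfl
  | succ t ih =>
    rw [← add_assoc]
    simp only [ch]
    rw [ih]

lemma ch_congr {e e' : ℕ → ℕ} (p : ℕ) : ∀ j : ℕ, (∀ l < j, e l = e' l) → ch e p j = ch e' p j := by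
  intro j
  induction j with
  | zero => intro _; rfl
  | succ j ih =>
    intro h
    simp only [ch]
    rw [ih (fun l hl => h l (by omega)), h j (by omega)]

lemma ch_le {e : ℕ → ℕ} {x : ℕ} (h : ∀ l, e l ≤ x) (j : ℕ) : ch e 0 j ≤ 2 ^ j * x := by
  have h1 : ch e 0 j + x ≤ 2 ^ j * x := by
    induction j with
    | zero => simp [ch]
    | succ j ih =>
      simp only [ch]
      have := h j
      have h2 : 2 ^ (j + 1) * x = 2 * (2 ^ j * x) := by ring
      omega
  omega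

lemma ext_succ {k : ℕ} (h : Fin (k + 1) → ℕ) (l : ℕ) : ext h (1 + l) = ext (Fin.tail h) l := by
  unfold ext
  by_cases hl : l < k
  · rw [dif_pos hl, dif_pos (by omega)]
    unfold Fin.tail
    congr 1
    apply Fin.ext
    simp [add_comm]
  · rw [dif_neg hl, dif_neg (by omega)]

lemma AP_iff : ∀ (k : ℕ) (h : Fin k → ℕ) (p : ℕ), (∀ j ≤ k, (ch (ext h) p j).Prime) ↔ p.Prime ∧ AP k h p := by
  intro k
  induction k with
  | zero =>
    intro h p
    constructor
    · intro H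
      exact ⟨H 0 le_rfl, trivial⟩
    · rintro ⟨H, -⟩ j hj
      have : j = 0 := by omega
      subst this
      exact H
  | succ k ih =>
    intro h p
    have h1 : ∀ j, ch (ext h) p (1 + j) = ch (ext (Fin.tail h)) (2 * p + h 0) j := by
      intro j
      rw [ch_shift]
      have h2 : (fun l => ext h (1 + l)) = ext (Fin.tail h) := by
        funext l
        exact ext_succ h l
      rw [h2]
      congr 1
    have h2 := ih (Fin.tail h) (2 * p + h 0)
    constructor
    · intro H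
      refine ⟨H 0 (by omega), ?_⟩
      have h3 := h2.1 (fun j hj => by
        rw [← h1]
        exact H (1 + j) (by omega))
      exact h3
    · rintro ⟨H0, H1⟩ j hj
      rcases j with _ | j
      · exact H0
      · have h3 := h2.2 H1 j (by omega)
        rw [← h1, add_comm 1 j] at h3
        exact h3

/-- the differences of the constant terms -/
def DD {k : ℕ} (h : Fin k → ℕ) (i j : ℕ) : ℕ := ch (fun l => ext h (i + l)) 0 (j - i)

lemma DD_spec {k : ℕ} (h : Fin k → ℕ) {i j : ℕ} (hij : i < j) :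
    ch (ext h) 0 j = 2 ^ (j - i) * ch (ext h) 0 i + DD h i j := by
  have h1 : j = i + (j - i) := by omega
  conv_lhs => rw [h1]
  rw [ch_shift, ch_affine]
  rfl

lemma DD_eq {k : ℕ} (h : Fin k → ℕ) {i j : ℕ} (hij : i < j) :
    DD h i j = 2 * DD h i (j - 1) + ext h (j - 1) := by
  unfold DD
  have h1 : j - i = (j - 1 - i) + 1 := by omega
  rw [h1]
  simp only [ch]
  rw [show i + (j - 1 - i) = j - 1 by omega]

/-- upper bound for the number of chains -/
theorem up_bound (k : ℕ) (hk : 1 ≤ k) : ∃ C : ℝ, 0 < C ∧ ∃ x₀ : ℕ, ∀ x : ℕ, x₀ ≤ x →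
    ∀ S : Finset ℕ, (∀ p ∈ S, p.Prime ∧ x < p ∧ p ≤ 2 * x) → ∀ h : Fin k → ℕ, (∀ i, 1 ≤ h i) →
    ((S.filter (fun p => ∀ j ≤ k, (ch (ext h) p j).Prime)).card : ℝ) ≤ C * (x / Real.log x ^ (k + 1)) *
      ∏ q ∈ (univ : Finset (Fin (k + 1) × Fin (k + 1))) with q.1 < q.2, rat (DD h q.1 q.2) ^ (k + 1) := by
  classical
  obtain ⟨C, hC, x₀, hx₀⟩ := forms_bound (k + 1) (by omega)
  refine ⟨C, hC, x₀, fun x hx S hS h hh => ?_⟩
  have key := hx₀ x hx (fun j => 2 ^ (j : ℕ)) (fun j => 2 ^ (j : ℕ) * x + ch (ext h) 0 j)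
    (fun i j => DD h i j) (by
      intro j
      refine ⟨Nat.one_le_two_pow, fun p hp hkp hd => ?_⟩
      have h1 := hp.dvd_of_dvd_pow hd
      have h2 := Nat.le_of_dvd (by norm_num) h1
      omega) (by
      intro i j hij
      have hij' : (i : ℕ) < j := hij
      refine ⟨?_, fun p hp hkp hd => ?_⟩
      · rw [DD_eq h hij']
        have hj : (j : ℕ) - 1 < k := by have := j.2; omega
        have h1 : 1 ≤ ext h ((j : ℕ) - 1) := by
          unfold ext
          rw [dif_pos hj]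
          exact hh _
        omega
      · have h1 := DD_spec h hij'
        have h2 : (2 : ℤ) ^ (j : ℕ) = 2 ^ (i : ℕ) * 2 ^ ((j : ℕ) - i) := by
          rw [← pow_add]
          congr 1
          omega
        have h3 : (((2 ^ (j : ℕ) : ℕ) : ℤ)) * ((2 ^ (i : ℕ) * x + ch (ext h) 0 i : ℕ) : ℤ) -
            ((2 ^ (i : ℕ) : ℕ) : ℤ) * ((2 ^ (j : ℕ) * x + ch (ext h) 0 j : ℕ) : ℤ) =
            -(((2 ^ (i : ℕ) * DD h i j : ℕ)) : ℤ) := by
          rw [h1]
          push_cast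
          rw [h2]
          ring
        rw [h3, dvd_neg, Int.natCast_dvd_natCast] at hd
        rcases (Nat.Prime.dvd_mul hp).1 hd with h4 | h4
        · exfalso
          have h5 := hp.dvd_of_dvd_pow h4
          have h6 := Nat.le_of_dvd (by norm_num) h5
          omega
        · exact h4)
  have hle : (S.filter (fun p => ∀ j ≤ k, (ch (ext h) p j).Prime)).card ≤
      #{n ∈ Icc 1 x | ∀ j : Fin (k + 1), (2 ^ (j : ℕ) * n + (2 ^ (j : ℕ) * x + ch (ext h) 0 j)).Prime} := by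
    apply card_le_card_of_injOn (fun p => p - x)
    · intro p hp
      rw [mem_coe, mem_filter] at hp
      obtain ⟨hp1, hp2⟩ := hp
      obtain ⟨h1, h2, h3⟩ := hS p hp1
      rw [mem_coe, mem_filter, mem_Icc]
      refine ⟨⟨by dsimp only; omega, by dsimp only; omega⟩, fun j => ?_⟩
      have h4 := hp2 j (by have := j.2; omega)
      rw [ch_affine] at h4
      have h5 : 2 ^ (j : ℕ) * (p - x) + (2 ^ (j : ℕ) * x + ch (ext h) 0 j) = 2 ^ (j : ℕ) * p + ch (ext h) 0 j := by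
        rw [← add_assoc, ← mul_add, Nat.sub_add_cancel h2.le]
      dsimp only
      rw [h5]
      exact h4
    · intro p hp q hq hpq
      rw [mem_coe, mem_filter] at hp hq
      have h1 := (hS p hp.1).2.1
      have h2 := (hS q hq.1).2.1
      simp only at hpq
      omega
  have hle' : ((S.filter (fun p => ∀ j ≤ k, (ch (ext h) p j).Prime)).card : ℝ) ≤
      (#{n ∈ Icc 1 x | ∀ j : Fin (k + 1), (2 ^ (j : ℕ) * n + (2 ^ (j : ℕ) * x + ch (ext h) 0 j)).Prime} : ℝ) := by
    exact_mod_cast hle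
  refine hle'.trans (key.trans (le_of_eq ?_))
  ring

/-- averages over one coordinate -/
lemma box_fiber {k : ℕ} (W : Fin k → Finset ℕ) (l : Fin k) (f : (Fin k → ℕ) → ℝ) (M : ℝ)
    (hM : ∀ h ∈ Fintype.piFinset W, ∑ t ∈ W l, f (Function.update h l t) ≤ M * (W l).card) :
    ∑ h ∈ Fintype.piFinset W, f h ≤ M * ∏ i, ((W i).card : ℝ) := by
  classical
  have e1 : ∑ h ∈ Fintype.piFinset W, ∑ t ∈ W l, f (Function.update h l t) =
      ∑ h ∈ Fintype.piFinset W, ∑ _t ∈ W l, f h := by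
    rw [← sum_product', ← sum_product']
    apply sum_nbij' (fun q => (Function.update q.1 l q.2, q.1 l)) (fun q => (Function.update q.1 l q.2, q.1 l))
    · intro q hq
      rw [mem_product, Fintype.mem_piFinset] at hq ⊢
      refine ⟨fun i => ?_, hq.1 l⟩
      by_cases hi : i = l
      · subst hi
        simpa using hq.2
      · simpa [hi] using hq.1 i
    · intro q hq
      rw [mem_product, Fintype.mem_piFinset] at hq ⊢
      refine ⟨fun i => ?_, hq.1 l⟩
      by_cases hi : i = l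
      · subst hi
        simpa using hq.2
      · simpa [hi] using hq.1 i
    · intro q _
      simp
    · intro q _
      simp
    · intro q _
      rfl
  have h1 : ∑ h ∈ Fintype.piFinset W, ∑ _t ∈ W l, f h = (W l).card * ∑ h ∈ Fintype.piFinset W, f h := by
    rw [mul_sum]
    apply sum_congr rfl
    intro h _
    rw [sum_const, nsmul_eq_mul]
  have h2 : (W l).card * ∑ h ∈ Fintype.piFinset W, f h ≤ (W l).card * (M * ∏ i, ((W i).card : ℝ)) := by
    rw [← h1, ← e1]
    calc ∑ h ∈ Fintype.piFinset W, ∑ t ∈ W l, f (Function.update h l t) ≤ ∑ _h ∈ Fintype.piFinset W, M * (W l).card :=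
          sum_le_sum hM
      _ = (W l).card * (M * ∏ i, ((W i).card : ℝ)) := by
          rw [sum_const, Fintype.card_piFinset, nsmul_eq_mul]
          push_cast
          ring
  rcases Nat.eq_zero_or_pos (W l).card with h0 | h0
  · have h3 : Fintype.piFinset W = ∅ := by
      rw [← card_eq_zero, Fintype.card_piFinset]
      exact prod_eq_zero (mem_univ l) h0
    have h4 : ∏ i, ((W i).card : ℝ) = 0 := prod_eq_zero (mem_univ l) (by rw [h0, Nat.cast_zero])
    rw [h3, sum_empty, h4, mul_zero]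
  · exact le_of_mul_le_mul_left h2 (by exact_mod_cast h0)

/-- many parameters, from the first moment and an upper bound -/
lemma many_g {α : Type*} {κ θ C₂ Q : ℝ} (hθ : 0 < θ) (hC₂ : 0 < C₂) (hκ : 0 < κ) (hQ : 0 < Q) (W : Finset α) (K : ℝ) (hK : 0 < K)
    (hWK : (W.card : ℝ) = K) (r ρ : α → ℝ)
    (hr : ∀ h ∈ W, r h ≤ κ * Q * ρ h) (hρ : ∑ h ∈ W, ρ h ^ 2 ≤ C₂ * K) (hR : 2 * θ * Q * K ≤ ∑ h ∈ W, r h)
    [DecidablePred fun h => θ * Q ≤ r h] :
    θ ^ 2 / (κ ^ 2 * C₂) * K ≤ ((W.filter (fun h => θ * Q ≤ r h)).card : ℝ) := by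
  obtain ⟨S, hS⟩ : ∃ S, S = W.filter (fun h => θ * Q ≤ r h) := ⟨_, rfl⟩
  rw [← hS]
  have hsub : S ⊆ W := by rw [hS]; exact filter_subset _ _
  have h1 : ∑ h ∈ W, r h ≤ ∑ h ∈ S, r h + θ * Q * K := by
    rw [← sum_filter_add_sum_filter_not W (fun h => θ * Q ≤ r h), ← hS]
    have h2 : ∑ h ∈ W.filter (fun h => ¬ θ * Q ≤ r h), r h ≤ ∑ _h ∈ W.filter (fun h => ¬ θ * Q ≤ r h), θ * Q := by
      apply sum_le_sum
      intro h hh
      rw [mem_filter] at hh
      exact (not_le.1 hh.2).le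
    rw [sum_const, nsmul_eq_mul] at h2
    have h3 : ((W.filter (fun h => ¬ θ * Q ≤ r h)).card : ℝ) ≤ K := by
      rw [← hWK]
      exact_mod_cast card_le_card (filter_subset _ _)
    have h4 : ((W.filter (fun h => ¬ θ * Q ≤ r h)).card : ℝ) * (θ * Q) ≤ K * (θ * Q) :=
      mul_le_mul_of_nonneg_right h3 (by positivity)
    linarith
  have h2 : θ * Q * K ≤ ∑ h ∈ S, r h := by linarith
  have h3 : ∑ h ∈ S, r h ≤ κ * Q * ∑ h ∈ S, ρ h := by
    rw [mul_sum]
    exact sum_le_sum fun h hh => hr h (hsub hh)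
  have h4 : (∑ h ∈ S, ρ h) ^ 2 ≤ S.card * ∑ h ∈ S, ρ h ^ 2 := sq_sum_le_card_mul_sum_sq
  have h5 : ∑ h ∈ S, ρ h ^ 2 ≤ C₂ * K :=
    (sum_le_sum_of_subset_of_nonneg hsub fun h _ _ => sq_nonneg _).trans hρ
  have h6 : θ * K ≤ κ * ∑ h ∈ S, ρ h := by
    have h7 : Q * (θ * K) ≤ Q * (κ * ∑ h ∈ S, ρ h) := by linarith
    exact le_of_mul_le_mul_left h7 hQ
  have h7 : (θ * K) ^ 2 ≤ κ ^ 2 * (S.card * (C₂ * K)) := by
    calc (θ * K) ^ 2 ≤ (κ * ∑ h ∈ S, ρ h) ^ 2 := pow_le_pow_left₀ (by positivity) h6 2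
      _ = κ ^ 2 * (∑ h ∈ S, ρ h) ^ 2 := by ring
      _ ≤ κ ^ 2 * (S.card * ∑ h ∈ S, ρ h ^ 2) := mul_le_mul_of_nonneg_left h4 (by positivity)
      _ ≤ κ ^ 2 * (S.card * (C₂ * K)) := by gcongr
  have h8 : K * (θ ^ 2 * K) ≤ K * (κ ^ 2 * C₂ * S.card) := by nlinarith
  have h9 : θ ^ 2 * K ≤ κ ^ 2 * C₂ * S.card := le_of_mul_le_mul_left h8 hK
  rw [div_mul_eq_mul_div, div_le_iff₀ (by positivity)]
  linarith

/-- the mean square of the singular factor over a box of windows -/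
theorem mean_square (k : ℕ) (hk : 1 ≤ k) (δ : ℝ) (hδ : 0 < δ) : ∃ C : ℝ, 0 < C ∧ ∃ x₀ : ℕ, ∀ x : ℕ, x₀ ≤ x →
    ∀ u H : Fin k → ℕ, (∀ i, u i + H i ≤ x ∧ (x : ℝ) ^ (1 / 6 + δ) ≤ H i) →
    ∑ h ∈ Fintype.piFinset (fun i => Ioc (u i) (u i + H i)),
      (∏ q ∈ (univ : Finset (Fin (k + 1) × Fin (k + 1))) with q.1 < q.2, rat (DD h q.1 q.2) ^ (k + 1)) ^ 2 ≤
      C * ∏ i, (H i : ℝ) := by
  classical
  obtain ⟨Q, hQ⟩ : ∃ Q : Finset (Fin (k + 1) × Fin (k + 1)), Q = (univ.filter fun q => q.1 < q.2) := ⟨_, rfl⟩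
  have hQ1 : 1 ≤ Q.card := by
    rw [Nat.one_le_iff_ne_zero, card_ne_zero]
    refine ⟨((⟨0, by omega⟩ : Fin (k + 1)), (⟨1, by omega⟩ : Fin (k + 1))), ?_⟩
    rw [hQ, mem_filter]
    refine ⟨mem_univ _, ?_⟩
    rw [Fin.lt_def]
    norm_num
  obtain ⟨C, hC, hrs⟩ := Pool.Agent.H373R2.BH.rat_shift ((k + 1) * 2 * Q.card) 7
  have hcast := tendsto_natCast_atTop_atTop (R := ℝ)
  obtain ⟨n1, hn1⟩ := eventually_atTop.1 (((tendsto_rpow_atTop (by norm_num : (0 : ℝ) < 1 / 6)).comp hcast).eventually_ge_atTop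
    ((2 : ℝ) ^ (k + 2)))
  refine ⟨Q.card * C, by positivity, max n1 1, fun x hx u H huH => ?_⟩
  have b1 : n1 ≤ x := le_trans (le_max_left _ _) hx
  have b2 : 1 ≤ x := le_trans (le_max_right _ _) hx
  have hx1 := hn1 x b1
  simp only [Function.comp] at hx1
  have hxr : (1 : ℝ) ≤ x := by exact_mod_cast b2
  have hx0 : (0 : ℝ) < x := by linarith
  rw [← hQ]
  obtain ⟨W, hW⟩ : ∃ W : Fin k → Finset ℕ, W = fun i => Ioc (u i) (u i + H i) := ⟨_, rfl⟩
  rw [← hW]
  have hWc : ∀ i, (W i).card = H i := by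
    intro i
    rw [hW, Nat.card_Ioc, Nat.add_sub_cancel_left]
  have hHr : ∀ i, 1 ≤ H i ∧ 2 ^ (k + 2) * x ≤ H i ^ 7 := by
    intro i
    have h1 : (x : ℝ) ^ (1 / 6 : ℝ) ≤ H i :=
      (Real.rpow_le_rpow_of_exponent_le hxr (by linarith)).trans (huH i).2
    have h2 : (1 : ℝ) ≤ (x : ℝ) ^ (1 / 6 : ℝ) := Real.one_le_rpow hxr (by norm_num)
    refine ⟨by exact_mod_cast h2.trans h1, ?_⟩
    have h3 : (2 : ℝ) ^ (k + 2) * x ≤ (H i : ℝ) ^ 7 := by
      calc (2 : ℝ) ^ (k + 2) * x ≤ (x : ℝ) ^ (1 / 6 : ℝ) * x := mul_le_mul_of_nonneg_right hx1 hx0.le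
        _ = (x : ℝ) ^ (1 / 6 : ℝ) * ((x : ℝ) ^ (1 / 6 : ℝ)) ^ 6 := by
            rw [← Real.rpow_natCast ((x : ℝ) ^ (1 / 6 : ℝ)) 6, ← Real.rpow_mul hx0.le]
            norm_num
        _ = ((x : ℝ) ^ (1 / 6 : ℝ)) ^ 7 := by ring
        _ ≤ _ := pow_le_pow_left₀ (by positivity) h1 7
    exact_mod_cast h3
  have hpt : ∀ h ∈ Fintype.piFinset W, (∏ q ∈ Q, rat (DD h q.1 q.2) ^ (k + 1)) ^ 2 ≤
      ∑ q ∈ Q, rat (DD h q.1 q.2) ^ ((k + 1) * 2 * Q.card) := by
    intro h _
    have hne : Q.Nonempty := card_pos.1 hQ1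
    obtain ⟨q0, hq0, hmax⟩ := exists_max_image Q (fun q => rat (DD h q.1 q.2) ^ ((k + 1) * 2)) hne
    have h1 : (∏ q ∈ Q, rat (DD h q.1 q.2) ^ (k + 1)) ^ 2 = ∏ q ∈ Q, rat (DD h q.1 q.2) ^ ((k + 1) * 2) := by
      rw [← prod_pow]
      apply prod_congr rfl
      intro q _
      rw [← pow_mul]
    rw [h1]
    calc ∏ q ∈ Q, rat (DD h q.1 q.2) ^ ((k + 1) * 2) ≤ ∏ _q ∈ Q, rat (DD h q0.1 q0.2) ^ ((k + 1) * 2) :=
          prod_le_prod (fun q _ => pow_nonneg (rat_nonneg _) _) (fun q hq => hmax q hq)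
      _ = rat (DD h q0.1 q0.2) ^ ((k + 1) * 2 * Q.card) := by rw [prod_const, ← pow_mul]
      _ ≤ _ := single_le_sum (f := fun q => rat (DD h q.1 q.2) ^ ((k + 1) * 2 * Q.card))
          (fun q _ => pow_nonneg (rat_nonneg _) _) hq0
  refine (sum_le_sum hpt).trans ?_
  rw [sum_comm]
  have hq : ∀ q ∈ Q, ∑ h ∈ Fintype.piFinset W, rat (DD h q.1 q.2) ^ ((k + 1) * 2 * Q.card) ≤ C * ∏ i, (H i : ℝ) := by
    intro q hqQ
    rw [hQ, mem_filter] at hqQ
    obtain ⟨i, j⟩ := q
    have hij : (i : ℕ) < j := hqQ.2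
    have hjk : (j : ℕ) - 1 < k := by have := j.2; omega
    have h1 := box_fiber W ⟨(j : ℕ) - 1, hjk⟩ (fun h => rat (DD h i j) ^ ((k + 1) * 2 * Q.card)) C (by
      intro h hh
      rw [Fintype.mem_piFinset] at hh
      obtain ⟨l, hl⟩ : ∃ l : Fin k, l = ⟨(j : ℕ) - 1, hjk⟩ := ⟨_, rfl⟩
      rw [← hl, hWc]
      have hext : ∀ t m, ext (Function.update h l t) m = if m = (j : ℕ) - 1 then t else ext h m := by
        intro t m
        unfold ext
        by_cases hm : m < k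
        · rw [dif_pos hm, dif_pos hm]
          by_cases hm2 : m = (j : ℕ) - 1
          · rw [if_pos hm2]
            have : (⟨m, hm⟩ : Fin k) = l := by rw [hl]; exact Fin.ext hm2
            rw [this, Function.update_self]
          · rw [if_neg hm2]
            have : (⟨m, hm⟩ : Fin k) ≠ l := by
              rw [hl]
              intro h5
              exact hm2 (Fin.ext_iff.1 h5)
            rw [Function.update_of_ne this]
        · rw [dif_neg hm, dif_neg hm, if_neg (by omega)]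
      have hD : ∀ t, DD (Function.update h l t) i j = t + 2 * DD h i ((j : ℕ) - 1) := by
        intro t
        rw [DD_eq _ hij, hext, if_pos rfl]
        have h5 : DD (Function.update h l t) i ((j : ℕ) - 1) = DD h i ((j : ℕ) - 1) := by
          unfold DD
          apply ch_congr
          intro m hm
          rw [hext, if_neg (by omega)]
        rw [h5]
        ring
      simp only [hD]
      obtain ⟨c, hc⟩ : ∃ c, c = u l + 2 * DD h i ((j : ℕ) - 1) := ⟨_, rfl⟩
      have h6 := hrs (H l) c (hHr l).1 (by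
        refine le_trans ?_ (hHr l).2
        have h7 : DD h i ((j : ℕ) - 1) ≤ 2 ^ ((j : ℕ) - 1 - i) * x := by
          unfold DD
          apply ch_le
          intro m
          unfold ext
          split_ifs with h8
          · have h9 := hh ⟨i + m, h8⟩
            rw [hW, mem_Ioc] at h9
            exact h9.2.trans (huH _).1
          · exact Nat.zero_le _
        have h8 : 2 ^ ((j : ℕ) - 1 - i) ≤ 2 ^ k := Nat.pow_le_pow_right (by norm_num) (by omega)
        have h9 : DD h i ((j : ℕ) - 1) ≤ 2 ^ k * x := h7.trans (Nat.mul_le_mul_right x h8)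
        have h10 := (huH l).1
        have h11 : 2 ^ (k + 2) * x = 4 * (2 ^ k * x) := by ring
        have h12 : x ≤ 2 ^ k * x := Nat.le_mul_of_pos_left _ (by positivity)
        omega)
      refine le_trans (le_of_eq ?_) h6
      rw [hW]
      apply sum_nbij' (fun t => t - u l) (fun w => w + u l)
      · intro t ht
        rw [mem_Ioc] at ht
        rw [mem_Icc]
        omega
      · intro w hw
        rw [mem_Icc] at hw
        rw [mem_Ioc]
        omega
      · intro t ht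
        rw [mem_Ioc] at ht
        omega
      · intro w _
        omega
      · intro t ht
        rw [mem_Ioc] at ht
        rw [hc]
        congr 2
        omega)
    refine h1.trans (le_of_eq ?_)
    congr 1
    apply prod_congr rfl
    intro m _
    rw [hWc]
  refine (sum_le_sum hq).trans (le_of_eq ?_)
  rw [sum_const, nsmul_eq_mul, mul_assoc]

open Classical in
/-- **Chains in every box of windows.** -/
theorem chain_main (k : ℕ) (hk : 1 ≤ k) (δ η : ℝ) (hδ : 0 < δ) (hη : 0 < η) : ∃ c : ℝ, 0 < c ∧ ∃ x₀ : ℕ, ∀ x : ℕ, x₀ ≤ x →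
    ∀ S : Finset ℕ, (∀ p ∈ S, p.Prime ∧ x < p ∧ p ≤ 2 * x) → η * (x / Real.log x) ≤ S.card →
    ∀ u H : Fin k → ℕ, (∀ i, u i + H i ≤ x ∧ (x : ℝ) ^ (1 / 6 + δ) ≤ H i) →
    c * ∏ i, (H i : ℝ) ≤ (((Fintype.piFinset (fun i => Ioc (u i) (u i + H i))).filter (fun h =>
      c * (x / Real.log x ^ (k + 1)) ≤ ((S.filter (fun p => ∀ j ≤ k, (ch (ext h) p j).Prime)).card : ℝ))).card : ℝ) := by
  obtain ⟨c1, hc1, x1, hx1⟩ := first_moment δ hδ k 2 2
  obtain ⟨κ, hκ, x2, hx2⟩ := up_bound k hk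
  obtain ⟨C₂, hC₂, x3, hx3⟩ := mean_square k hk δ hδ
  have hlogt : Tendsto (fun x : ℕ => Real.log (x : ℝ)) atTop atTop :=
    Real.tendsto_log_atTop.comp tendsto_natCast_atTop_atTop
  obtain ⟨n1, hn1⟩ := eventually_atTop.1 (hlogt.eventually_ge_atTop (1 + 2 / η))
  obtain ⟨θ, hθd⟩ : ∃ θ, θ = c1 * η / 4 := ⟨_, rfl⟩
  have hθ : 0 < θ := by rw [hθd]; positivity
  obtain ⟨c, hcd⟩ : ∃ c, c = min θ (θ ^ 2 / (κ ^ 2 * C₂)) := ⟨_, rfl⟩
  have hc : 0 < c := by rw [hcd]; exact lt_min hθ (by positivity)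
  refine ⟨c, hc, max x1 (max x2 (max x3 (max n1 1))), fun x hx S hS hSc u H huH => ?_⟩
  have b1 : x1 ≤ x := le_trans (le_max_left _ _) hx
  have hx' := le_trans (le_max_right _ _) hx
  have b2 : x2 ≤ x := le_trans (le_max_left _ _) hx'
  have hx' := le_trans (le_max_right _ _) hx'
  have b3 : x3 ≤ x := le_trans (le_max_left _ _) hx'
  have hx' := le_trans (le_max_right _ _) hx'
  have b4 : n1 ≤ x := le_trans (le_max_left _ _) hx'
  have b5 : 1 ≤ x := le_trans (le_max_right _ _) hx'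
  have hL := hn1 x b4
  have hxr : (1 : ℝ) ≤ x := by exact_mod_cast b5
  have hx0 : (0 : ℝ) < x := by linarith
  have f1 := hx1 x b1 S (by
    intro p hp
    have := hS p hp
    rw [mem_Icc]
    omega) u H huH
  have f2 := hx2 x b2 S hS
  have f3 := hx3 x b3 u H huH
  obtain ⟨L, hLd⟩ : ∃ L, L = Real.log (x : ℝ) := ⟨_, rfl⟩
  rw [← hLd] at hL f1 f2 hSc ⊢
  have h2η : 0 < 2 / η := by positivity
  have hL0 : 0 < L := by linarith
  obtain ⟨K, hKd⟩ : ∃ K : ℝ, K = ∏ i, (H i : ℝ) := ⟨_, rfl⟩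
  have hHpos : ∀ i, (0 : ℝ) < H i := by
    intro i
    exact lt_of_lt_of_le (by positivity) (huH i).2
  have hK : 0 < K := by rw [hKd]; exact prod_pos fun i _ => hHpos i
  rw [← hKd] at f1 f3 ⊢
  obtain ⟨W, hW⟩ : ∃ W, W = Fintype.piFinset (fun i => Ioc (u i) (u i + H i)) := ⟨_, rfl⟩
  rw [← hW] at f1 f3 ⊢
  have hWK : (W.card : ℝ) = K := by
    rw [hW, Fintype.card_piFinset, hKd]
    push_cast
    apply prod_congr rfl
    intro i _
    rw [Nat.card_Ioc, Nat.add_sub_cancel_left]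
  obtain ⟨Q, hQd⟩ : ∃ Q : ℝ, Q = x / L ^ (k + 1) := ⟨_, rfl⟩
  have hQ : 0 < Q := by rw [hQd]; positivity
  have hrel : ∀ h, ((S.filter (fun p => AP k h p)).card : ℝ) = ((S.filter (fun p => ∀ j ≤ k, (ch (ext h) p j).Prime)).card : ℝ) := by
    intro h
    congr 2
    apply filter_congr
    intro p hp
    rw [AP_iff]
    exact ⟨fun h1 => ⟨(hS p hp).1, h1⟩, fun h1 => h1.2⟩
  have hmain := many_g (θ := θ) (κ := κ) (C₂ := C₂) (Q := Q) hθ hC₂ hκ hQ W K hK hWK
    (fun h => ((S.filter (fun p => ∀ j ≤ k, (ch (ext h) p j).Prime)).card : ℝ))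
    (fun h => ∏ q ∈ (univ : Finset (Fin (k + 1) × Fin (k + 1))) with q.1 < q.2, rat (DD h q.1 q.2) ^ (k + 1)) (by
      intro h hh
      rw [hW, Fintype.mem_piFinset] at hh
      have h1 := f2 h (fun i => by
        have := mem_Ioc.1 (hh i)
        omega)
      rw [← hQd] at h1
      refine le_trans (le_of_eq ?_) h1
      congr!) f3 (by
      have h1 : c1 / L ^ k * K * (S.card - x / L ^ 2) ≤
          ∑ h ∈ W, ((S.filter (fun p => ∀ j ≤ k, (ch (ext h) p j).Prime)).card : ℝ) := by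
        refine f1.trans (le_of_eq ?_)
        apply sum_congr rfl
        intro h _
        exact hrel h
      refine le_trans ?_ h1
      have h2 : η / 2 * (x / L) ≤ S.card - x / L ^ 2 := by
        have h3 : (x : ℝ) / L ^ 2 ≤ η / 2 * (x / L) := by
          rw [div_le_iff₀ (by positivity)]
          have h4 : 2 / η ≤ L := by linarith
          rw [div_le_iff₀ hη] at h4
          have h5 : η / 2 * (x / L) * L ^ 2 = x * (L * η / 2) := by
            field_simp
          rw [h5]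
          apply le_mul_of_one_le_right hx0.le
          linarith
        linarith
      have h3 : c1 / L ^ k * K * (η / 2 * (x / L)) = 2 * θ * Q * K := by
        rw [hθd, hQd, pow_succ]
        field_simp
        ring
      rw [← h3]
      exact mul_le_mul_of_nonneg_left h2 (by positivity))
  calc c * K ≤ θ ^ 2 / (κ ^ 2 * C₂) * K := by
        apply mul_le_mul_of_nonneg_right _ hK.le
        rw [hcd]
        exact min_le_right _ _
    _ ≤ _ := hmain
    _ ≤ _ := by
        have h1 : (W.filter (fun h => θ * Q ≤ ((S.filter (fun p => ∀ j ≤ k, (ch (ext h) p j).Prime)).card : ℝ))).card ≤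
            (W.filter (fun h => c * (x / L ^ (k + 1)) ≤ ((S.filter (fun p => ∀ j ≤ k, (ch (ext h) p j).Prime)).card : ℝ))).card := by
          apply card_le_card
          intro h hh
          rw [mem_filter] at hh ⊢
          refine ⟨hh.1, le_trans ?_ hh.2⟩
          rw [← hQd]
          apply mul_le_mul_of_nonneg_right _ hQ.le
          rw [hcd]
          exact min_le_left _ _
        exact_mod_cast h1

end Pool.Agent.V5helper54.CW
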