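import Mathlib
import Pool.Agent.H646.Tuples

/-! # Upper bound sieve for systems of linear forms `a_j n + b_j` whose leading coefficients have small prime factors only -/

set_option autoImplicit false

namespace Pool.Agent.V5helper54.CW

open Finset
open Pool.Agent.H646
open Pool.Agent.H646.Sv1M
open Pool.Agent.H646.Sv2M (rankin_lower)
open Pool.Agent.H646.Sv3M (log_le_euler one_le_prod_real prod_mono_set prime_factor_pos one_le_inv_factor rat_eq)
open Pool.Agent.H646.TuplesM (rat_ge_one rat_nonneg rho_bounds ev_log)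

/-- residues of the zeros -/
lemma exists_d {k : ℕ} (y : ℕ) (a b : Fin k → ℕ) (ha : ∀ j, ∀ p : ℕ, p.Prime → k < p → ¬ p ∣ a j) :
    ∃ d : Fin k → ℕ, ∀ p ∈ PR k y, ∀ j, ((a j * d j : ℕ) : ZMod p) = (b j : ZMod p) := by
  obtain ⟨Q, hQ⟩ : ∃ Q, Q = ∏ p ∈ PR k y, p := ⟨_, rfl⟩
  have hQ0 : Q ≠ 0 := by
    rw [hQ]
    exact (PR_squarefree k y).ne_zero
  have : NeZero Q := ⟨hQ0⟩
  refine ⟨fun j => (((a j : ZMod Q)⁻¹ * (b j : ZMod Q)) : ZMod Q).val, fun p hp j => ?_⟩
  have hcop : Nat.Coprime (a j) Q := by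
    rw [hQ]
    apply Nat.Coprime.prod_right
    intro q hq
    have h1 := PR_prime' hq
    rw [Nat.coprime_comm, h1.1.coprime_iff_not_dvd]
    exact ha j q h1.1 h1.2.1
  have h1 : ((a j * (((a j : ZMod Q)⁻¹ * (b j : ZMod Q)) : ZMod Q).val : ℕ) : ZMod Q) = (b j : ZMod Q) := by
    rw [Nat.cast_mul, ZMod.natCast_zmod_val, ← mul_assoc, ZMod.coe_mul_inv_eq_one _ hcop, one_mul]
  have hpQ : p ∣ Q := by
    rw [hQ]
    exact dvd_prod_of_mem _ hp
  have h2 := (ZMod.natCast_eq_natCast_iff _ _ _).1 h1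
  exact (ZMod.natCast_eq_natCast_iff _ _ _).2 (h2.of_dvd hpQ)

/-- Selberg's sieve -/
theorem forms_selberg (k : ℕ) (hk : 1 ≤ k) (a b d : Fin k → ℕ) (x y z : ℕ) (hz : 1 ≤ z) (ha1 : ∀ j, 1 ≤ a j)
    (hd : ∀ p ∈ PR k y, ∀ j, ((a j * d j : ℕ) : ZMod p) = (b j : ZMod p)) :
    (#{n ∈ Icc 1 x | ∀ j, (a j * n + b j).Prime} : ℝ) ≤
      y + x / (∑ l ∈ (∏ p ∈ PR k y, p).divisors with l ≤ z,
        ∏ p ∈ l.primeFactors, (rho d p : ℝ) / (p - rho d p)) + (z : ℝ) ^ 6 := by
  have h1 : (#{n ∈ Icc 1 x | ∀ j, (a j * n + b j).Prime} : ℝ) ≤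
      y + (#{n ∈ Icc 1 x | y < n ∧ ∀ j, (a j * n + b j).Prime} : ℝ) := by
    have h2 : ({n ∈ Icc 1 x | ∀ j, (a j * n + b j).Prime} : Finset ℕ) ⊆
        Icc 1 y ∪ {n ∈ Icc 1 x | y < n ∧ ∀ j, (a j * n + b j).Prime} := by
      intro n hn
      rw [mem_filter, mem_Icc] at hn
      rw [mem_union, mem_filter, mem_Icc, mem_Icc]
      by_cases h : y < n
      · exact Or.inr ⟨hn.1, h, hn.2⟩
      · exact Or.inl ⟨hn.1.1, by omega⟩
    have h3 := (card_le_card h2).trans (card_union_le _ _)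
    rw [Nat.card_Icc, Nat.add_sub_cancel] at h3
    exact_mod_cast h3
  have h4 : (#{n ∈ Icc 1 x | y < n ∧ ∀ j, (a j * n + b j).Prime} : ℝ) ≤ (svT hk d x y).siftedSum := by
    unfold BoundingSieve.siftedSum
    change _ ≤ ∑ m ∈ (range x).image (fun n => fv d n),
      (if Nat.Coprime (∏ p ∈ PR k y, p) m then (1:ℝ) else 0)
    rw [sum_image (fun a _ b _ hab => fv_injective hk d hab)]
    have h1 : (#{n ∈ Icc 1 x | y < n ∧ ∀ j, (a j * n + b j).Prime} : ℝ) =
        ∑ n ∈ range x, if (y < n + 1 ∧ ∀ j, (a j * (n + 1) + b j).Prime) then (1 : ℝ) else 0 := by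
      rw [card_eq_sum_ones, sum_filter]
      push_cast
      rw [← sum_image (s := range x) (g := fun n => n + 1)
        (f := fun n => if (y < n ∧ ∀ j, (a j * n + b j).Prime) then (1 : ℝ) else 0)
        (fun a _ b _ hab => by simpa using hab)]
      apply sum_congr _ (fun _ _ => rfl)
      ext n
      simp only [mem_Icc, mem_image, mem_range]
      constructor
      · rintro ⟨h1, h2⟩
        exact ⟨n - 1, by omega, by omega⟩
      · rintro ⟨m, hm, rfl⟩
        omega
    rw [h1]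
    apply sum_le_sum
    intro n _
    by_cases hp : (y < n + 1 ∧ ∀ j, (a j * (n + 1) + b j).Prime)
    · rw [if_pos hp, if_pos]
      unfold fv
      apply Nat.Coprime.prod_right
      intro j _
      apply Nat.Coprime.prod_left
      intro p hpp
      have h3 := PR_prime' hpp
      rw [h3.1.coprime_iff_not_dvd]
      intro hdvd
      have h5 : ((n + (d j + 1) : ℕ) : ZMod p) = 0 := (ZMod.natCast_eq_zero_iff _ _).2 hdvd
      have h6 : ((a j * (n + 1) + b j : ℕ) : ZMod p) = 0 := by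
        have h7 := hd p hpp j
        have h8 : ((a j * (n + 1) + b j : ℕ) : ZMod p) = (a j : ZMod p) * ((n + (d j + 1) : ℕ) : ZMod p) := by
          push_cast at h7 ⊢
          rw [← h7]
          ring
        rw [h8, h5, mul_zero]
      have h9 := (ZMod.natCast_eq_zero_iff _ _).1 h6
      have h10 := (Nat.prime_dvd_prime_iff_eq h3.1 (hp.2 j)).1 h9
      have h11 : n + 1 ≤ a j * (n + 1) := Nat.le_mul_of_pos_left _ (ha1 j)
      omega
    · rw [if_neg hp]; split_ifs <;> norm_num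
  have h5 := Pool.Agent.H646.Sel.selberg_bound (s := svT hk d x y) (z := z) hz
    (fun l hl => nu_inv_leT hk d x y l hl) (fun l hl => rem_leT hk d x y l hl)
  have h6 : Pool.Agent.H646.Sel.GS (svT hk d x y) z =
      ∑ l ∈ (∏ p ∈ PR k y, p).divisors with l ≤ z,
        ∏ p ∈ l.primeFactors, (rho d p : ℝ) / (p - rho d p) := by
    unfold Pool.Agent.H646.Sel.GS
    apply sum_congr rfl
    intro l hl
    rw [mem_filter] at hl
    exact st_eqT hk d x y l (Nat.dvd_of_mem_divisors hl.1)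
  rw [h6] at h5
  have h7 : (svT hk d x y).totalMass = x := rfl
  rw [h7] at h5
  linarith

/-- all residues are different if the prime divides no `D i j` -/
lemma rho_good' {k : ℕ} {a b d : Fin k → ℕ} {D : Fin k → Fin k → ℕ} {p : ℕ} (hp : p.Prime) (hkp : k < p)
    (hd : ∀ j, ((a j * d j : ℕ) : ZMod p) = (b j : ZMod p))
    (hD : ∀ i j : Fin k, i < j → ∀ p : ℕ, p.Prime → k < p → (p : ℤ) ∣ (a j : ℤ) * b i - a i * b j → p ∣ D i j)
    (h : ∀ i j : Fin k, i < j → ¬ p ∣ D i j) : rho d p = k := by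
  unfold rho
  rw [Finset.card_image_of_injective, Finset.card_univ, Fintype.card_fin]
  have key : ∀ i j : Fin k, i < j → d i % p ≠ d j % p := by
    intro i j hij heq
    apply h i j hij
    apply hD i j hij p hp hkp
    rw [← ZMod.intCast_zmod_eq_zero_iff_dvd]
    have h1 : (d i : ZMod p) = (d j : ZMod p) := (ZMod.natCast_eq_natCast_iff' _ _ _).2 heq
    have h2 := hd i
    have h3 := hd j
    push_cast at h2 h3 ⊢
    rw [← h2, ← h3, h1]
    ring
  intro i j hij
  rcases lt_trichotomy i j with hlt | heq | hgt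
  · exact (key i j hlt hij).elim
  · exact heq
  · exact (key j i hgt hij.symm).elim

/-- the product over the primes -/
theorem product_bound' (k : ℕ) (hk : 1 ≤ k) :
    ∃ C > (0 : ℝ), ∀ y : ℕ, 2 ≤ y → ∀ (d : Fin k → ℕ) (D : Fin k → Fin k → ℕ), (∀ i j, i < j → 0 < D i j) →
      (∀ p ∈ PR k y, (∀ i j : Fin k, i < j → ¬ p ∣ D i j) → rho d p = k) →
      ∏ p ∈ PR k y, (1 - (rho d p : ℝ) / p) ≤
        C / (Real.log y) ^ k * ∏ q ∈ (univ : Finset (Fin k × Fin k)) with q.1 < q.2, rat (D q.1 q.2) ^ k := by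
  classical
  set Ck : ℝ := ∏ p ∈ (k + 1).primesBelow, (1 - (p : ℝ)⁻¹)⁻¹ with hCk
  have hCk1 : 1 ≤ Ck := one_le_prod_real (fun p hp => one_le_inv_factor (Nat.prime_of_mem_primesBelow hp))
  refine ⟨Ck ^ k, by positivity, ?_⟩
  intro y hy d D hD0 hgood
  have hlog : 0 < Real.log y := Real.log_pos (by exact_mod_cast hy)
  have hPR : ∀ p ∈ PR k y, p.Prime ∧ k < p ∧ p ≤ y := fun p hp => PR_prime' hp
  -- Mertens
  have hM : ∏ p ∈ PR k y, (1 - (p : ℝ)⁻¹) ≤ Ck / Real.log y := by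
    have h1 : Real.log y ≤ (∏ p ∈ PR k y, (1 - (p : ℝ)⁻¹)⁻¹) * Ck := by
      have hsub : (y + 1).primesBelow ⊆ PR k y ∪ (k + 1).primesBelow := by
        intro p hp
        rw [Nat.mem_primesBelow] at hp
        rw [Finset.mem_union]
        by_cases hpk : k < p
        · left
          unfold PR
          rw [Finset.mem_filter, Finset.mem_Ioc]
          exact ⟨⟨hpk, by omega⟩, hp.2⟩
        · right
          rw [Nat.mem_primesBelow]
          exact ⟨by omega, hp.2⟩
      have hdis : Disjoint (PR k y) ((k + 1).primesBelow) := by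
        rw [Finset.disjoint_left]
        intro p hp hp2
        rw [Nat.mem_primesBelow] at hp2
        have := (hPR p hp).2.1
        omega
      calc Real.log y ≤ ∏ p ∈ (y + 1).primesBelow, (1 - (p : ℝ)⁻¹)⁻¹ := log_le_euler y
        _ ≤ ∏ p ∈ PR k y ∪ (k + 1).primesBelow, (1 - (p : ℝ)⁻¹)⁻¹ := by
            apply prod_mono_set hsub
            intro p hp
            rw [Finset.mem_union] at hp
            rcases hp with hp | hp
            · exact one_le_inv_factor (hPR p hp).1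
            · exact one_le_inv_factor (Nat.prime_of_mem_primesBelow hp)
        _ = _ := by rw [Finset.prod_union hdis]
    have hpos : 0 < ∏ p ∈ PR k y, (1 - (p : ℝ)⁻¹) :=
      Finset.prod_pos (fun p hp => (prime_factor_pos (hPR p hp).1).1)
    rw [Finset.prod_inv_distrib] at h1
    rw [le_div_iff₀ hlog]
    have h2 := mul_le_mul_of_nonneg_left h1 hpos.le
    calc _ ≤ _ := h2
      _ = Ck := by rw [← mul_assoc, mul_inv_cancel₀ hpos.ne', one_mul]
  -- factorwise
  have hfac : ∀ p ∈ PR k y, (1 - (rho d p : ℝ) / p) ≤ (1 - (p : ℝ)⁻¹) ^ k *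
      ∏ q ∈ (univ : Finset (Fin k × Fin k)) with q.1 < q.2,
        (if p ∣ D q.1 q.2 then ((1 - (p : ℝ)⁻¹)⁻¹) ^ k else 1) := by
    intro p hp
    obtain ⟨hpp, hkp, hpy⟩ := hPR p hp
    obtain ⟨f1, f2⟩ := prime_factor_pos hpp
    have hp0 : (0 : ℝ) < p := by exact_mod_cast hpp.pos
    have hterm : ∀ q : Fin k × Fin k, 1 ≤
        (if p ∣ D q.1 q.2 then ((1 - (p : ℝ)⁻¹)⁻¹) ^ k else 1) := by
      intro q
      split_ifs
      · exact one_le_pow₀ (one_le_inv_factor hpp)
      · exact le_rfl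
    by_cases hbad : ∃ q : Fin k × Fin k, q.1 < q.2 ∧ p ∣ D q.1 q.2
    · obtain ⟨q, hq1, hq2⟩ := hbad
      have hq : q ∈ ({q ∈ (univ : Finset (Fin k × Fin k)) | q.1 < q.2}) := by
        rw [Finset.mem_filter]; exact ⟨Finset.mem_univ _, hq1⟩
      have h1 : (1 - (rho d p : ℝ) / p) ≤ 1 := by
        have : (0 : ℝ) ≤ (rho d p : ℝ) / p := by positivity
        linarith
      refine h1.trans ?_
      rw [← Finset.mul_prod_erase _ _ hq, if_pos hq2, ← mul_assoc, ← mul_pow,
        mul_inv_cancel₀ f1.ne', one_pow, one_mul]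
      calc (1 : ℝ) = ∏ _q ∈ ({q ∈ (univ : Finset (Fin k × Fin k)) | q.1 < q.2}).erase q, (1 : ℝ) := by simp
        _ ≤ _ := Finset.prod_le_prod (fun _ _ => zero_le_one) (fun q _ => hterm q)
    · push Not at hbad
      have hrho : rho d p = k := hgood p hp (fun i j hij => hbad (i, j) hij)
      rw [hrho]
      have h1 : ∏ q ∈ (univ : Finset (Fin k × Fin k)) with q.1 < q.2,
        (if p ∣ D q.1 q.2 then ((1 - (p : ℝ)⁻¹)⁻¹) ^ k else 1) = 1 := by
        apply Finset.prod_eq_one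
        intro q hq
        rw [Finset.mem_filter] at hq
        rw [if_neg (hbad q hq.2)]
      rw [h1, mul_one]
      have h2 := one_add_mul_le_pow (a := -(p : ℝ)⁻¹) (by
        have : (p : ℝ)⁻¹ ≤ 1 := by linarith
        linarith) k
      calc (1 - (k : ℝ) / p) = 1 + (k : ℝ) * (-(p : ℝ)⁻¹) := by rw [div_eq_mul_inv]; ring
        _ ≤ _ := h2
        _ = _ := by rw [← sub_eq_add_neg]
  have hnn : ∀ p ∈ PR k y, 0 ≤ (1 - (rho d p : ℝ) / p) := by
    intro p hp
    obtain ⟨hpp, hkp, hpy⟩ := hPR p hp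
    have hp0 : (0 : ℝ) < p := by exact_mod_cast hpp.pos
    have : (rho d p : ℝ) / p ≤ 1 := by
      rw [div_le_one hp0]
      exact_mod_cast (rho_le d p).trans hkp.le
    linarith
  calc ∏ p ∈ PR k y, (1 - (rho d p : ℝ) / p)
      ≤ ∏ p ∈ PR k y, ((1 - (p : ℝ)⁻¹) ^ k *
      ∏ q ∈ (univ : Finset (Fin k × Fin k)) with q.1 < q.2,
        (if p ∣ D q.1 q.2 then ((1 - (p : ℝ)⁻¹)⁻¹) ^ k else 1)) := Finset.prod_le_prod hnn hfac
    _ = (∏ p ∈ PR k y, (1 - (p : ℝ)⁻¹)) ^ k * ∏ q ∈ (univ : Finset (Fin k × Fin k)) with q.1 < q.2,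
        ∏ p ∈ PR k y, (if p ∣ D q.1 q.2 then ((1 - (p : ℝ)⁻¹)⁻¹) ^ k else 1) := by
        rw [Finset.prod_mul_distrib, Finset.prod_pow, Finset.prod_comm]
    _ ≤ (Ck / Real.log y) ^ k * ∏ q ∈ (univ : Finset (Fin k × Fin k)) with q.1 < q.2,
        rat (D q.1 q.2) ^ k := by
        apply mul_le_mul
        · apply pow_le_pow_left₀ _ hM
          exact Finset.prod_nonneg (fun p hp => (prime_factor_pos (hPR p hp).1).1.le)
        · apply Finset.prod_le_prod
          · intro q _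
            apply Finset.prod_nonneg
            intro p hp
            split_ifs
            · exact pow_nonneg (zero_le_one.trans (one_le_inv_factor (hPR p hp).1)) _
            · exact zero_le_one
          · intro q hq
            rw [Finset.mem_filter] at hq
            have hpos : 0 < D q.1 q.2 := hD0 q.1 q.2 hq.2
            rw [← Finset.prod_filter, Finset.prod_pow, rat_eq hpos]
            apply pow_le_pow_left₀
            · exact Finset.prod_nonneg (fun p hp => zero_le_one.trans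
                (one_le_inv_factor (hPR p (Finset.mem_filter.1 hp).1).1))
            · apply prod_mono_set
              · intro p hp
                rw [Finset.mem_filter] at hp
                rw [Nat.mem_primeFactors]
                exact ⟨(hPR p hp.1).1, hp.2, hpos.ne'⟩
              · intro p hp
                exact one_le_inv_factor (Nat.prime_of_mem_primeFactors hp)
        · apply Finset.prod_nonneg
          intro q _
          apply Finset.prod_nonneg
          intro p hp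
          split_ifs
          · exact pow_nonneg (zero_le_one.trans (one_le_inv_factor (hPR p hp).1)) _
          · exact zero_le_one
        · positivity
    _ = _ := by rw [div_pow]

lemma prod_rat_ge_one' {k : ℕ} {D : Fin k → Fin k → ℕ} (hD0 : ∀ i j, i < j → 0 < D i j) (A : ℕ) :
    1 ≤ ∏ q ∈ (univ : Finset (Fin k × Fin k)) with q.1 < q.2, rat (D q.1 q.2) ^ A := by
  apply Finset.prod_induction _ (fun x : ℝ => 1 ≤ x)
    (fun a b ha hb => one_le_mul_of_one_le_of_one_le ha hb) le_rfl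
  intro q hq
  have h1 := hD0 q.1 q.2 (mem_filter.mp hq).2
  exact one_le_pow₀ (rat_ge_one (by omega))

/-- **Upper bound sieve for systems of linear forms** -/
theorem forms_bound (k : ℕ) (hk : 1 ≤ k) :
    ∃ C > (0 : ℝ), ∃ x₀ : ℕ, ∀ x : ℕ, x₀ ≤ x → ∀ (a b : Fin k → ℕ) (D : Fin k → Fin k → ℕ),
      (∀ j, 1 ≤ a j ∧ ∀ p : ℕ, p.Prime → k < p → ¬ p ∣ a j) →
      (∀ i j, i < j → 0 < D i j ∧
        ∀ p : ℕ, p.Prime → k < p → (p : ℤ) ∣ (a j : ℤ) * b i - a i * b j → p ∣ D i j) →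
      (#{n ∈ Icc 1 x | ∀ j, (a j * n + b j).Prime} : ℝ) ≤
        C * x / (Real.log x) ^ k * ∏ q ∈ (univ : Finset (Fin k × Fin k)) with q.1 < q.2, rat (D q.1 q.2) ^ k := by
  obtain ⟨E, hE, y₀, hR⟩ := rankin_lower k hk
  obtain ⟨C, hC, hP⟩ := product_bound' k hk
  -- eventually conditions on u = x^(1/(12E))
  have hE' : (0 : ℝ) < 1 / (12 * E) := by
    have : (0 : ℝ) < E := by exact_mod_cast hE
    positivity
  have hu : Filter.Tendsto (fun x : ℕ => (x : ℝ) ^ (1 / (12 * E) : ℝ)) Filter.atTop Filter.atTop :=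
    (tendsto_rpow_atTop hE').comp tendsto_natCast_atTop_atTop
  have hu1 := hu.eventually_ge_atTop (max (4 : ℝ) (y₀ + 2))
  obtain ⟨x₀, hx₀⟩ := Filter.eventually_atTop.mp
    ((ev_log k).and (hu1.and (Filter.eventually_ge_atTop 3)))
  refine ⟨1 + 2 * C * (24 * E) ^ k, by positivity, x₀, ?_⟩
  intro x hx a b D ha hD
  obtain ⟨h1, h2, h3⟩ := hx₀ x hx
  set u : ℝ := (x : ℝ) ^ (1 / (12 * E) : ℝ) with hudef
  have hu4 : 4 ≤ u := le_trans (le_max_left _ _) h2
  have huy : (y₀ : ℝ) + 2 ≤ u := le_trans (le_max_right _ _) h2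
  set y : ℕ := ⌊u⌋₊ with hy
  have hyu : (y : ℝ) ≤ u := Nat.floor_le (by linarith)
  have hyu2 : u / 2 ≤ y := by
    have := Nat.lt_floor_add_one u
    linarith
  have hy0 : y₀ ≤ y := Nat.le_floor (by linarith)
  have hy2 : 2 ≤ y := Nat.le_floor (by push_cast; linarith)
  have hx0 : (0 : ℝ) < x := by exact_mod_cast (by omega : 0 < x)
  have hx1 : (1 : ℝ) ≤ x := by exact_mod_cast (by omega : 1 ≤ x)
  have hlogx : 0 < Real.log x := Real.log_pos (by exact_mod_cast (by omega : 1 < x))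
  have hEr : (0 : ℝ) < E := by exact_mod_cast hE
  have hlogu : Real.log u = Real.log x / (12 * E) := by
    rw [hudef, Real.log_rpow hx0]; ring
  have hlogy : Real.log x / (24 * E) ≤ Real.log y := by
    have h4 : Real.log (u / 2) ≤ Real.log y := Real.log_le_log (by linarith) hyu2
    rw [Real.log_div (by linarith) (by norm_num)] at h4
    have h5 : 2 * Real.log 2 ≤ Real.log u := by
      have : Real.log (2 ^ 2) ≤ Real.log u := Real.log_le_log (by norm_num) (by linarith)
      rw [Real.log_pow] at this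
      simpa using this
    have h6 : Real.log x / (24 * E) = Real.log u / 2 := by rw [hlogu]; field_simp; ring
    linarith
  have hlogy0 : 0 < Real.log x / (24 * E) := by positivity
  -- z
  set z : ℕ := y ^ E with hz
  have hz1 : 1 ≤ z := Nat.one_le_pow _ _ (by omega)
  have hupow : u ^ (6 * E) = (x : ℝ) ^ (1 / 2 : ℝ) := by
    rw [hudef, ← Real.rpow_natCast, ← Real.rpow_mul hx0.le]
    congr 1
    push_cast
    field_simp
    ring
  have hz6 : (z : ℝ) ^ 6 ≤ (x : ℝ) ^ (1 / 2 : ℝ) := by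
    rw [hz, ← hupow]
    push_cast
    rw [← pow_mul, mul_comm E 6]
    exact pow_le_pow_left₀ (by positivity) hyu _
  have hyx : (y : ℝ) ≤ (x : ℝ) ^ (1 / 2 : ℝ) := by
    rw [← hupow]
    calc (y : ℝ) ≤ u := hyu
      _ = u ^ 1 := (pow_one u).symm
      _ ≤ u ^ (6 * E) := pow_le_pow_right₀ (by linarith) (by omega)
  obtain ⟨d, hd⟩ := exists_d y a b (fun j => (ha j).2)
  have hS := hR y hy0 (rho d) (fun p _ => rho_bounds hk d p) z le_rfl
  set S := ∑ l ∈ (∏ p ∈ PR k y, p).divisors with l ≤ z,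
          ∏ p ∈ l.primeFactors, (rho d p : ℝ) / (p - rho d p) with hSdef
  have hprod : ∏ p ∈ PR k y, (1 - (rho d p : ℝ) / p)⁻¹ = (∏ p ∈ PR k y, (1 - (rho d p : ℝ) / p))⁻¹ :=
    Finset.prod_inv_distrib _
  set PP := ∏ p ∈ PR k y, (1 - (rho d p : ℝ) / p) with hPP
  have hPP0 : 0 < PP := by
    apply Finset.prod_pos
    intro p hp
    have h4 := (mem_filter.mp hp).1
    rw [mem_Ioc] at h4
    have h5 := (rho_bounds hk d p).2
    have h6 : (0 : ℝ) < p := by exact_mod_cast (by omega : 0 < p)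
    rw [sub_pos, div_lt_one h6]
    exact_mod_cast (by omega : rho d p < p)
  rw [hprod] at hS
  have hS0 : 0 < S := lt_of_lt_of_le (by positivity) hS
  have hinv : 1 / S ≤ 2 * PP := by
    rw [div_le_iff₀ hS0]
    have : 2 * PP * (1 / 2 * PP⁻¹) ≤ 2 * PP * S := mul_le_mul_of_nonneg_left hS (by positivity)
    have h4 : 2 * PP * (1 / 2 * PP⁻¹) = 1 := by field_simp
    linarith
  have hPb := hP y hy2 d D (fun i j hij => (hD i j hij).1) (fun p hp hnd => by
    have h4 := PR_prime' hp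
    exact rho_good' h4.1 h4.2.1 (hd p hp) (fun i j hij => (hD i j hij).2) hnd)
  rw [← hPP] at hPb
  set R := ∏ q ∈ (univ : Finset (Fin k × Fin k)) with q.1 < q.2, rat (D q.1 q.2) ^ k with hRdef
  have hR1 : 1 ≤ R := prod_rat_ge_one' (fun i j hij => (hD i j hij).1) k
  have hmain := forms_selberg k hk a b d x y z hz1 (fun j => (ha j).1) hd
  have hxS : (x : ℝ) / S ≤ x * (2 * (C / (Real.log x / (24 * E)) ^ k * R)) := by
    rw [div_eq_mul_one_div]
    apply mul_le_mul_of_nonneg_left _ hx0.le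
    refine hinv.trans ?_
    apply mul_le_mul_of_nonneg_left _ (by norm_num)
    refine hPb.trans ?_
    apply mul_le_mul_of_nonneg_right _ (by linarith)
    apply div_le_div_of_nonneg_left hC.le (by positivity)
    exact pow_le_pow_left₀ hlogy0.le hlogy _
  have hrest : (y : ℝ) + (z : ℝ) ^ 6 ≤ x / (Real.log x) ^ k * R := by
    have h4 : (y : ℝ) + (z : ℝ) ^ 6 ≤ 2 * (x : ℝ) ^ (1 / 2 : ℝ) := by linarith
    have h5 : 2 * (x : ℝ) ^ (1 / 2 : ℝ) ≤ x / (Real.log x) ^ k := by
      rw [le_div_iff₀ (by positivity)]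
      have h6 : (x : ℝ) ^ (1 / 2 : ℝ) * (x : ℝ) ^ (1 / 2 : ℝ) = x := by
        rw [← Real.rpow_add hx0]; norm_num
      calc 2 * (x : ℝ) ^ (1 / 2 : ℝ) * Real.log x ^ k = (x : ℝ) ^ (1 / 2 : ℝ) * (2 * Real.log x ^ k) := by ring
        _ ≤ (x : ℝ) ^ (1 / 2 : ℝ) * (x : ℝ) ^ (1 / 2 : ℝ) := mul_le_mul_of_nonneg_left h1 (by positivity)
        _ = x := h6
    have h7 : 0 ≤ (x : ℝ) / (Real.log x) ^ k := by positivity
    calc _ ≤ _ := h4
      _ ≤ _ := h5
      _ = x / (Real.log x) ^ k * 1 := (mul_one _).symm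
      _ ≤ _ := mul_le_mul_of_nonneg_left hR1 h7
  calc (#{n ∈ Icc 1 x | ∀ j, (a j * n + b j).Prime} : ℝ) ≤ y + x / S + (z : ℝ) ^ 6 := hmain
    _ = (y + (z : ℝ) ^ 6) + x / S := by ring
    _ ≤ x / (Real.log x) ^ k * R + x * (2 * (C / (Real.log x / (24 * E)) ^ k * R)) :=
        add_le_add hrest hxS
    _ = (1 + 2 * C * (24 * E) ^ k) * x / (Real.log x) ^ k * R := by
        rw [div_pow]
        field_simp

end Pool.Agent.V5helper54.CW
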